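import Pool.Agent.W_7d29a1_NP.NPMain
import Pool.Agent.W_7d29a1_SR.Reg
import Pool.Agent.W_7d29a1_21z.Closing

/-!
The window theorem for the width and the unit of the polymer gives superdiffusivity at all scales (MP_7d29a1_pr,
STORM Z): `w_n ≥ a (n / m) ^ (1 / 2 + a) w_m`. (helper46, with the closing theorem of helper21)
-/

namespace Pool.Agent.W_7d29a1_Z46

open MeasureTheory ProbabilityTheory Filter Topology
open Pool.Agent.W_7d29a1_F Pool.Agent.W_7d29a1_G Pool.Agent.W_7d29a1_SR Pool.Agent.W_7d29a1_NP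
open Pool.Agent.W_7d29a1_21z

variable {μ : Measure ℝ} [IsProbabilityMeasure μ] {c C : ℝ} {n₀ : ℕ}

/-- **Superdiffusivity at all scales**, from the window theorem for the width and the unit of the law `μ`. -/
theorem superdiff (h : In μ c C n₀) (hW : WinThm (wd μ) (EE μ)) : ∃ a : ℝ, 0 < a ∧ ∃ n₂ : ℕ, 1 ≤ n₂ ∧ ∀ m n : ℕ,
    n₂ ≤ m → m ≤ n → a * ((n : ℝ) / m) ^ (1 / 2 + a) * wd μ m ≤ wd μ n := by
  obtain ⟨c', hc', n₁, hn₁, hnp⟩ := np_main h
  obtain ⟨a, k, ha, hk, n₂, hn₂, hw⟩ := wd_ratio h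
  obtain ⟨n₃, hl⟩ := wd_lower h
  obtain ⟨n₄, hp⟩ := eventually_atTop.1 ((wd_tendsto h).eventually_ge_atTop 1)
  have hE : ∀ n, 0 < EE μ n := fun n => lt_of_lt_of_le one_pos (one_le_EE (μ := μ) n)
  have hr : ∀ m n : ℕ, 1 ≤ m → m ≤ n → (1 : ℝ) ≤ (n : ℝ) / m := by
    intro m n hm hmn
    have : (0 : ℝ) < m := by exact_mod_cast hm
    rw [le_div_iff₀ this, one_mul]
    exact_mod_cast hmn
  obtain ⟨N, hN⟩ : ∃ N : ℕ, N = max (max n₁ n₂) (max n₃ n₄) := ⟨_, rfl⟩
  have hN1 : n₁ ≤ N := by rw [hN]; exact (le_max_left _ _).trans (le_max_left _ _)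
  have hN2 : n₂ ≤ N := by rw [hN]; exact (le_max_right _ _).trans (le_max_left _ _)
  have hN3 : n₃ ≤ N := by rw [hN]; exact (le_max_left _ _).trans (le_max_right _ _)
  have hN4 : n₄ ≤ N := by rw [hN]; exact (le_max_right _ _).trans (le_max_right _ _)
  have hN0 : 1 ≤ N := hn₁.trans hN1
  have hwp : ∀ n, N ≤ n → 0 < wd μ n := fun n hn => lt_of_lt_of_le one_pos (hp n (hN4.trans hn))
  obtain ⟨A, hA⟩ : ∃ A : ℝ, A = max 2 (1 / k) := ⟨_, rfl⟩
  have hA2 : 2 ≤ A := by rw [hA]; exact le_max_left _ _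
  have hAk : 1 / k ≤ A := by rw [hA]; exact le_max_right _ _
  have hAk' : 1 ≤ A * k := by
    rw [div_le_iff₀ hk] at hAk
    exact hAk
  obtain ⟨c₁, hc₁, c₂, hc₂, n₅, hfin⟩ := closing (wd μ) (EE μ) N A c' (by linarith) hc' hwp (fun n _ => hE n)
    (fun m n hm hmn => by
      have hm1 : 1 ≤ m := hN0.trans hm
      have hmR : (0 : ℝ) < m := by exact_mod_cast hm1
      have hwm := (hwp m hm).le
      have hwn := (hwp n (hm.trans hmn)).le
      constructor
      · have h4 := hw m n (hN2.trans hm) hmn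
        have h5 : (1 : ℝ) ≤ ((n : ℝ) / m) ^ a := Real.one_le_rpow (hr m n hm1 hmn) ha.le
        have h6 : k * wd μ m ≤ wd μ n := by
          calc k * wd μ m = k * 1 * wd μ m := by ring
            _ ≤ k * ((n : ℝ) / m) ^ a * wd μ m :=
                mul_le_mul_of_nonneg_right (mul_le_mul_of_nonneg_left h5 hk.le) hwm
            _ ≤ wd μ n := h4
        calc wd μ m = 1 * wd μ m := (one_mul _).symm
          _ ≤ (A * k) * wd μ m := mul_le_mul_of_nonneg_right hAk' hwm
          _ = A * (k * wd μ m) := by ring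
          _ ≤ A * wd μ n := mul_le_mul_of_nonneg_left h6 (by linarith)
      · have h4 := hl m n (hN3.trans hm) hmn
        refine le_of_mul_le_mul_left ?_ hmR
        calc (m : ℝ) * wd μ n ≤ 2 * (n * wd μ m) := h4
          _ ≤ A * (n * wd μ m) := mul_le_mul_of_nonneg_right hA2 (by positivity)
          _ = m * (A * ((n : ℝ) / m) * wd μ m) := by field_simp)
    (fun m n hm hmn => by
      have hm1 : 1 ≤ m := hN0.trans hm
      have hmR : (0 : ℝ) < m := by exact_mod_cast hm1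
      constructor
      · have h4 := EE_mono (μ := μ) hmn
        have h5 := hE n
        nlinarith
      · have h4 := scale_b h hm1 hmn
        have h5 := (hE m).le
        refine le_of_mul_le_mul_left ?_ hmR
        calc (m : ℝ) * EE μ n ≤ 2 * (n * EE μ m) := h4
          _ ≤ A * (n * EE μ m) := mul_le_mul_of_nonneg_right hA2 (by positivity)
          _ = m * (A * ((n : ℝ) / m) * EE μ m) := by field_simp)
    (fun m n hm hmn => by
      have hm1 : 1 ≤ m := hN0.trans hm
      have hmR : (0 : ℝ) < m := by exact_mod_cast hm1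
      have hnR : (0 : ℝ) < n := by exact_mod_cast (hm1.trans hmn)
      have h4 := hnp m n (hN1.trans hm) hmn
      unfold bn at h4
      rw [le_div_iff₀ hnR] at h4
      refine le_trans (le_of_eq ?_) h4
      rw [Real.rpow_add (by positivity), Real.rpow_one]
      field_simp)
    hW
  obtain ⟨b, hb⟩ : ∃ b : ℝ, b = min c₁ c₂ := ⟨_, rfl⟩
  have hb0 : 0 < b := by rw [hb]; exact lt_min hc₁ hc₂
  refine ⟨b, hb0, max N n₅, hN0.trans (le_max_left _ _), fun m n hm hmn => ?_⟩
  have hm1 : N ≤ m := (le_max_left _ _).trans hm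
  have h1 := hfin m n ((le_max_right _ _).trans hm) hmn
  have h2 : ((n : ℝ) / m) ^ (1 / 2 + b) ≤ ((n : ℝ) / m) ^ (1 / 2 + c₁) :=
    Real.rpow_le_rpow_of_exponent_le (hr m n (hN0.trans hm1) hmn) (by
      have : b ≤ c₁ := by rw [hb]; exact min_le_left _ _
      linarith)
  refine le_trans ?_ h1
  refine mul_le_mul_of_nonneg_right ?_ (hwp m hm1).le
  exact mul_le_mul (by rw [hb]; exact min_le_right _ _) h2 (by positivity) hc₂.le

end Pool.Agent.W_7d29a1_Z46
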