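import Pool.Agent.W_7d29a1_SR.NuChi
import Pool.Agent.W_7d29a1_SR.MainS
import Pool.Agent.W_7d29a1_59E.Ei

/-!
STORM Z (MP_7d29a1_pr): superdiffusivity on the probability space of the problem, from the growth of the width `wd`.
(helper46)
-/

namespace Pool.Agent.W_7d29a1_Z46

open MeasureTheory ProbabilityTheory Filter Topology
open Pool.Agent.W_7d29a1_F Pool.Agent.W_7d29a1_G Pool.Agent.W_7d29a1_SR
open Pool.Agent.W_7d29a1_h47 (map_toEnv EM_of Nondeg_of polE walk)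

section nu

variable {Ω : Type*} [MeasurableSpace Ω] {P : Measure Ω} [IsProbabilityMeasure P] {ω : ℕ × ℤ → Ω → ℝ} {β : ℝ}

/-- The liminf of probabilities whose means are small infinitely often vanishes almost surely. -/
theorem liminf_zero {g : ℕ → Ω → ℝ} (hm : ∀ n, Measurable (g n)) (h0 : ∀ n x, 0 ≤ g n x) (h1 : ∀ n x, g n x ≤ 1)
    (hs : ∀ ε : ℝ, 0 < ε → ∃ᶠ n in atTop, ∫ x, g n x ∂P ≤ ε) :
    ∀ᵐ x ∂P, liminf (fun n => g n x) atTop = 0 := by
  have hi : ∀ n, Integrable (g n) P := fun n => by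
    refine Integrable.of_bound (hm n).aestronglyMeasurable 1 (Eventually.of_forall fun x => ?_)
    rw [Real.norm_eq_abs, abs_of_nonneg (h0 n x)]
    exact h1 n x
  -- a sparse subsequence
  obtain ⟨φ, hφ, hφs⟩ := extraction_forall_of_frequently
    (P := fun k n => ∫ x, g n x ∂P ≤ (1 / 2 : ℝ) ^ k) fun k => hs _ (by positivity)
  have hsum : Summable fun k => ∫ x, g (φ k) x ∂P :=
    Summable.of_nonneg_of_le (fun k => integral_nonneg fun x => h0 _ x) hφs
      (summable_geometric_of_lt_one (by norm_num) (by norm_num))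
  have h2 := ae_tendsto_zero_of_sum (P := P) (f := fun k => g (φ k)) (fun k => hm _) (fun k x => h0 _ x)
    (fun k => hi _) hsum
  filter_upwards [h2] with x hx
  have hb1 : IsBoundedUnder (· ≥ ·) atTop fun n => g n x :=
    ⟨0, by
      rw [eventually_map]
      exact Eventually.of_forall fun n => h0 n x⟩
  have hb2 : IsCoboundedUnder (· ≥ ·) atTop fun n => g n x := by
    refine IsBoundedUnder.isCoboundedUnder_ge ⟨1, ?_⟩
    rw [eventually_map]
    exact Eventually.of_forall fun n => h1 n x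
  refine le_antisymm ?_ ?_
  · refine le_of_forall_pos_le_add fun ε hε => ?_
    rw [zero_add]
    refine liminf_le_of_frequently_le ?_ hb1
    have h3 : ∀ᶠ k in atTop, g (φ k) x ≤ ε := (hx.eventually (gt_mem_nhds hε)).mono fun k hk => le_of_lt hk
    rw [frequently_atTop]
    intro N
    obtain ⟨k, hk1, hk2⟩ := (h3.and (eventually_ge_atTop N)).exists
    exact ⟨φ k, hk2.trans (hφ.id_le k), hk1⟩
  · exact le_liminf_of_le hb2 (Eventually.of_forall fun n => h0 n x)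

/-- A lower bound of the wandering exponent: the balls of radius `n ^ b` are not typical for infinitely many `n`. -/
theorem nuP_ge (hmeas : ∀ p, Measurable (ω p)) {b : ℝ}
    (hs : ∀ ε : ℝ, 0 < ε → ∃ᶠ n : ℕ in atTop, ∫ x, polP β (fun p => ω p x) n (ball n ((n : ℝ) ^ b)) ∂P ≤ ε) :
    b ≤ nuP P β ω := by
  unfold nuP
  refine le_csInf ⟨1, one_pos, ?_⟩ ?_
  · have h1 : ∀ (n : ℕ) (x : Ω), polP β (fun p => ω p x) n (ball n ((n : ℝ) ^ (1 : ℝ))) = 1 := by
      intro n x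
      have e : ball n ((n : ℝ) ^ (1 : ℝ)) = Set.univ := by
        refine Set.eq_univ_of_forall fun s i hi => ?_
        rw [Real.rpow_one]
        exact abs_walk_le s i
      rw [e]
      exact polP_univ β (fun p => ω p x) n
    show ∫ x, liminf (fun n : ℕ => polP β (fun p => ω p x) n (ball n ((n : ℝ) ^ (1 : ℝ)))) atTop ∂P = 1
    simp only [h1, liminf_const, integral_const, probReal_univ, one_smul]
  · rintro a ⟨ha0, ha⟩
    by_contra hab
    push Not at hab
    have h2 := liminf_zero (P := P) (g := fun (n : ℕ) x => polP β (fun p => ω p x) n (ball n ((n : ℝ) ^ a)))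
      (fun n => polP_meas hmeas β n _) (fun n x => polP_nonneg _ _ _ _) (fun n x => polP_le_one _ _ _ _) fun ε hε => by
        refine ((hs ε hε).and_eventually (eventually_ge_atTop 1)).mono fun n hn => ?_
        refine le_trans (integral_mono (polP_integrable hmeas β n _) (polP_integrable hmeas β n _) fun x => ?_) hn.1
        refine polP_mono _ _ _ fun s hs i hi => (hs i hi).trans ?_
        exact Real.rpow_le_rpow_of_exponent_le (by exact_mod_cast hn.2) hab.le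
    rw [integral_congr_ae h2, integral_zero] at ha
    exact zero_ne_one ha

end nu

variable {μ : Measure ℝ} [IsProbabilityMeasure μ] {c C : ℝ} {n₀ : ℕ}
variable {Ω : Type*} [MeasurableSpace Ω] {P : Measure Ω} [IsProbabilityMeasure P] {ω : ℕ × ℤ → Ω → ℝ} {β : ℝ}

/-- Superdiffusivity from the growth of the width, in one environment law. -/
theorem core_Z (h : In μ c C n₀) (hF : HF2 μ) (hmeas : ∀ p, Measurable (ω p))
    (hmp : MeasurePreserving (fun x => toF β fun p => ω p x) P (law μ))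
    (hw : ∃ a : ℝ, 0 < a ∧ ∀ᶠ n : ℕ in atTop, (n : ℝ) ^ (1 / 2 + a) ≤ wd μ n) :
    ∃ c' : ℝ, 0 < c' ∧
      (∀ᶠ n : ℕ in atTop, (n : ℝ) ^ (1 + c') ≤
        ∫ x, polE β (fun p => ω p x) n (fun s => (walk s n : ℝ) ^ 2) ∂P) ∧
      Tendsto (fun n : ℕ => ∫ x, polP β (fun p => ω p x) n {s | |(walk s n : ℝ)| ≤ (n : ℝ) ^ (1 / 2 + c')} ∂P) atTop
        (𝓝 0) ∧
      1 / 2 + c' ≤ nuP P β ω := by
  obtain ⟨a, ha, hwa⟩ := hw
  obtain ⟨a₁, A₁, b, B, -, -, hb, hB, n₁, hn₁, hsc⟩ := scales (P := P) (β := β) (ω := ω) h hmp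
  have hD := Pool.Agent.W_7d29a1_59E.dj_of h hF
  obtain ⟨b', hb', n₂, hM⟩ := Pool.Agent.W_7d29a1_59E.endM_P (P := P) (ω := ω) (β := β) h hD hmeas hmp 2
  have hT : Tendsto (fun n : ℕ => ∫ x, polP β (fun p => ω p x) n {s | |(walk s n : ℝ)| ≤ (n : ℝ) ^ (1 / 2 + a / 2)} ∂P)
      atTop (𝓝 0) := by
    rw [Metric.tendsto_atTop']
    intro ε hε
    obtain ⟨c₁, hc₁, n₃, hE⟩ := Pool.Agent.W_7d29a1_59E.endS_P (P := P) (ω := ω) (β := β) h hD hmeas hmp
      (show 0 < ε / 2 by positivity)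
    have h1 : ∀ᶠ n : ℕ in atTop, |∫ x, polP β (fun p => ω p x) n {s | |(walk s n : ℝ)| ≤ (n : ℝ) ^ (1 / 2 + a / 2)} ∂P| <
        ε := by
      filter_upwards [hwa, eventually_ge_atTop n₁, eventually_ge_atTop n₃,
        ev_absorb (b := 1 / 2 + a) (b' := 1 / 2 + a / 2) (K := c₁ * b) (by positivity) (by linarith)] with n g1 g2 g3 g4
      obtain ⟨-, -, s1, -, -⟩ := hsc n g2
      have h2 : (n : ℝ) ^ (1 / 2 + a / 2) ≤ c₁ * wth P β ω (fun v => J μ (v / 2)) n := by
        calc (n : ℝ) ^ (1 / 2 + a / 2) ≤ c₁ * b * (n : ℝ) ^ (1 / 2 + a) := g4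
          _ ≤ c₁ * b * wd μ n := mul_le_mul_of_nonneg_left g1 (by positivity)
          _ = c₁ * (b * wd μ n) := by ring
          _ ≤ _ := mul_le_mul_of_nonneg_left s1 hc₁.le
      have h3 := hE n g3
      have h4 : ∫ x, polP β (fun p => ω p x) n {s | |(walk s n : ℝ)| ≤ (n : ℝ) ^ (1 / 2 + a / 2)} ∂P ≤ ε / 2 :=
        le_trans (integral_mono (polP_integrable hmeas β n _) (polP_integrable hmeas β n _)
          fun x => polP_mono _ _ _ fun s hs => le_trans hs h2) h3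
      rw [abs_of_nonneg (integral_nonneg fun x => polP_nonneg _ _ _ _)]
      linarith
    obtain ⟨N, hN⟩ := eventually_atTop.1 h1
    exact ⟨N, fun n hn => by
      rw [Real.dist_eq, sub_zero]
      exact hN n (le_of_lt hn)⟩
  refine ⟨a / 2, by positivity, ?_, hT, ?_⟩
  · filter_upwards [hwa, eventually_ge_atTop n₁, eventually_ge_atTop n₂, eventually_ge_atTop 1,
      ev_absorb (b := 1 + 2 * a) (b' := 1 + a / 2) (K := b' * b ^ 2) (by positivity) (by linarith)] with n g1 g2 g3 g5 g4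
    obtain ⟨-, -, s1, -, -⟩ := hsc n g2
    have hn0 : (0 : ℝ) < n := by exact_mod_cast g5
    have h2 := hM n g3
    have h3 : (fun s : Fin n → Bool => |(walk s n : ℝ)| ^ 2) = fun s => (walk s n : ℝ) ^ 2 := by
      funext s
      exact sq_abs _
    rw [h3] at h2
    refine le_trans ?_ h2
    have h4 : 0 ≤ b * (n : ℝ) ^ (1 / 2 + a) := by positivity
    have h5 : b * (n : ℝ) ^ (1 / 2 + a) ≤ wth P β ω (fun v => J μ (v / 2)) n :=
      (mul_le_mul_of_nonneg_left g1 hb.le).trans s1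
    calc (n : ℝ) ^ (1 + a / 2) ≤ b' * b ^ 2 * (n : ℝ) ^ (1 + 2 * a) := g4
      _ = b' * (b * (n : ℝ) ^ (1 / 2 + a)) ^ 2 := by
          rw [mul_pow, ← Real.rpow_natCast ((n : ℝ) ^ (1 / 2 + a)), ← Real.rpow_mul hn0.le]
          have e : (1 / 2 + a) * ((2 : ℕ) : ℝ) = 1 + 2 * a := by
            push_cast
            ring
          rw [e]
          ring
      _ ≤ _ := mul_le_mul_of_nonneg_left (pow_le_pow_left₀ h4 h5 2) hb'.le
  · refine nuP_ge hmeas fun ε hε => Eventually.frequently ?_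
    filter_upwards [hT.eventually (gt_mem_nhds hε)] with n hn
    refine le_trans (integral_mono (polP_integrable hmeas β n _) (polP_integrable hmeas β n _) fun x =>
      polP_mono _ _ _ fun s hs => ?_) hn.le
    exact hs n le_rfl

/-- **Superdiffusivity** on the probability space of the problem. -/
theorem main_Z
    (hIn : ∀ (μ : Measure ℝ) [IsProbabilityMeasure μ], Pool.Agent.W_7d29a1_h47.EM μ → Pool.Agent.W_7d29a1_h47.Nondeg μ →
      ∃ (c C : ℝ) (n₀ : ℕ), In μ c C n₀)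
    (hHF : ∀ (μ : Measure ℝ) [IsProbabilityMeasure μ], Pool.Agent.W_7d29a1_h47.EM μ → Pool.Agent.W_7d29a1_h47.Nondeg μ →
      HF2 μ)
    (hZ : ∀ (μ : Measure ℝ) [IsProbabilityMeasure μ], Pool.Agent.W_7d29a1_h47.EM μ → Pool.Agent.W_7d29a1_h47.Nondeg μ →
      ∃ a : ℝ, 0 < a ∧ ∀ᶠ n : ℕ in atTop, (n : ℝ) ^ (1 / 2 + a) ≤ wd μ n)
    {Ω : Type*} [MeasurableSpace Ω] (P : Measure Ω) [IsProbabilityMeasure P]
    (ω : ℕ × ℤ → Ω → ℝ) (hmeas : ∀ p, Measurable (ω p)) (hindep : iIndepFun ω P)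
    (hident : ∀ p q, IdentDistrib (ω p) (ω q) P P) (hnc : ¬ ∃ c : ℝ, ∀ᵐ x ∂P, ω (0, 0) x = c)
    (hexp : ∀ b : ℝ, Integrable (fun x => Real.exp (b * ω (0, 0) x)) P) {β : ℝ} (hβ : 0 < β) :
    ∃ c : ℝ, 0 < c ∧
      (∀ᶠ n : ℕ in atTop, (n : ℝ) ^ (1 + c) ≤
        ∫ x, polE β (fun p => ω p x) n (fun s => (walk s n : ℝ) ^ 2) ∂P) ∧
      Tendsto (fun n : ℕ => ∫ x, polP β (fun p => ω p x) n {s | |(walk s n : ℝ)| ≤ (n : ℝ) ^ (1 / 2 + c)} ∂P) atTop
        (𝓝 0) ∧
      1 / 2 + c ≤ nuP P β ω := by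
  obtain ⟨μ, hμdef⟩ : ∃ μ : Measure ℝ, μ = P.map fun x => β * ω (0, 0) x := ⟨_, rfl⟩
  have hm0 : Measurable fun x => β * ω (0, 0) x := (hmeas _).const_mul β
  have hprob : IsProbabilityMeasure μ := by
    rw [hμdef]
    exact Measure.isProbabilityMeasure_map hm0.aemeasurable
  have hμ : Pool.Agent.W_7d29a1_h47.EM μ := by
    rw [hμdef]
    exact EM_of (hmeas _) hexp β
  have hnd : Pool.Agent.W_7d29a1_h47.Nondeg μ := by
    rw [hμdef]
    exact Nondeg_of (hmeas _) hnc hβ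
  have hmp := mp_toF hmeas hindep hident β
  rw [← hμdef] at hmp
  obtain ⟨c₀, C₀, n₀, hI⟩ := hIn μ hμ hnd
  exact core_Z hI (hHF μ hμ hnd) hmeas hmp (hZ μ hμ hnd)

end Pool.Agent.W_7d29a1_Z46
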