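import Pool.Agent.W_7d29a1_Z46.MainZ

/-!
STORM Z (MP_7d29a1_pr): superdiffusivity of the end point along the scales with `n ^ (1 / 2 + a) ≤ wd μ n`; the headline if there are
infinitely many such scales (lattice version). (helper46)
-/

namespace Pool.Agent.W_7d29a1_Z46

open MeasureTheory ProbabilityTheory Filter Topology
open Pool.Agent.W_7d29a1_F Pool.Agent.W_7d29a1_G Pool.Agent.W_7d29a1_SR
open Pool.Agent.W_7d29a1_h47 (map_toEnv EM_of Nondeg_of polE walk)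

variable {μ : Measure ℝ} [IsProbabilityMeasure μ] {c C : ℝ} {n₀ : ℕ}
variable {Ω : Type*} [MeasurableSpace Ω] {P : Measure Ω} [IsProbabilityMeasure P] {ω : ℕ × ℤ → Ω → ℝ} {β : ℝ}

/-- The end point is spread at the scales at which the width is large. -/
theorem ev_Z (h : In μ c C n₀) (hF : HF2 μ) (hmeas : ∀ p, Measurable (ω p))
    (hmp : MeasurePreserving (fun x => toF β fun p => ω p x) P (law μ)) {a : ℝ} (ha : 0 < a) :
    (∀ᶠ n : ℕ in atTop, (n : ℝ) ^ (1 / 2 + a) ≤ wd μ n → (n : ℝ) ^ (1 + a / 2) ≤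
      ∫ x, polE β (fun p => ω p x) n (fun s => (walk s n : ℝ) ^ 2) ∂P) ∧
    ∀ ε : ℝ, 0 < ε → ∀ᶠ n : ℕ in atTop, (n : ℝ) ^ (1 / 2 + a) ≤ wd μ n →
      ∫ x, polP β (fun p => ω p x) n {s | |(walk s n : ℝ)| ≤ (n : ℝ) ^ (1 / 2 + a / 2)} ∂P ≤ ε := by
  obtain ⟨a₁, A₁, b, B, -, -, hb, hB, n₁, hn₁, hsc⟩ := scales (P := P) (β := β) (ω := ω) h hmp
  have hD := Pool.Agent.W_7d29a1_59E.dj_of h hF
  obtain ⟨b', hb', n₂, hM⟩ := Pool.Agent.W_7d29a1_59E.endM_P (P := P) (ω := ω) (β := β) h hD hmeas hmp 2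
  refine ⟨?_, fun ε hε => ?_⟩
  · filter_upwards [eventually_ge_atTop n₁, eventually_ge_atTop n₂, eventually_ge_atTop 1,
      ev_absorb (b := 1 + 2 * a) (b' := 1 + a / 2) (K := b' * b ^ 2) (by positivity) (by linarith)] with n g2 g3 g5 g4 g1
    obtain ⟨-, -, s1, -, -⟩ := hsc n g2
    have hn0 : (0 : ℝ) < n := by exact_mod_cast g5
    have h2 := hM n g3
    have h3 : (fun s : Fin n → Bool => |(walk s n : ℝ)| ^ 2) = fun s => (walk s n : ℝ) ^ 2 := by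
      funext s
      exact sq_abs _
    rw [h3] at h2
    refine le_trans ?_ h2
    have h4 : 0 ≤ b * (n : ℝ) ^ (1 / 2 + a) := by positivity
    have h5 : b * (n : ℝ) ^ (1 / 2 + a) ≤ wth P β ω (fun v => J μ (v / 2)) n :=
      (mul_le_mul_of_nonneg_left g1 hb.le).trans s1
    calc (n : ℝ) ^ (1 + a / 2) ≤ b' * b ^ 2 * (n : ℝ) ^ (1 + 2 * a) := g4
      _ = b' * (b * (n : ℝ) ^ (1 / 2 + a)) ^ 2 := by
          rw [mul_pow, ← Real.rpow_natCast ((n : ℝ) ^ (1 / 2 + a)), ← Real.rpow_mul hn0.le]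
          have e : (1 / 2 + a) * ((2 : ℕ) : ℝ) = 1 + 2 * a := by
            push_cast
            ring
          rw [e]
          ring
      _ ≤ _ := mul_le_mul_of_nonneg_left (pow_le_pow_left₀ h4 h5 2) hb'.le
  · obtain ⟨c₁, hc₁, n₃, hE⟩ := Pool.Agent.W_7d29a1_59E.endS_P (P := P) (ω := ω) (β := β) h hD hmeas hmp hε
    filter_upwards [eventually_ge_atTop n₁, eventually_ge_atTop n₃,
      ev_absorb (b := 1 / 2 + a) (b' := 1 / 2 + a / 2) (K := c₁ * b) (by positivity) (by linarith)] with n g2 g3 g4 g1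
    obtain ⟨-, -, s1, -, -⟩ := hsc n g2
    have h2 : (n : ℝ) ^ (1 / 2 + a / 2) ≤ c₁ * wth P β ω (fun v => J μ (v / 2)) n := by
      calc (n : ℝ) ^ (1 / 2 + a / 2) ≤ c₁ * b * (n : ℝ) ^ (1 / 2 + a) := g4
        _ ≤ c₁ * b * wd μ n := mul_le_mul_of_nonneg_left g1 (by positivity)
        _ = c₁ * (b * wd μ n) := by ring
        _ ≤ _ := mul_le_mul_of_nonneg_left s1 hc₁.le
    exact le_trans (integral_mono (polP_integrable hmeas β n _) (polP_integrable hmeas β n _)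
      fun x => polP_mono _ _ _ fun s hs => le_trans hs h2) (hE n g3)

/-- Superdiffusivity along the scales at which the width is large, in one environment law. -/
theorem core_ZF (h : In μ c C n₀) (hF : HF2 μ) (hmeas : ∀ p, Measurable (ω p))
    (hmp : MeasurePreserving (fun x => toF β fun p => ω p x) P (law μ))
    (hw : ∃ a : ℝ, 0 < a ∧ ∃ᶠ n : ℕ in atTop, (n : ℝ) ^ (1 / 2 + a) ≤ wd μ n) :
    ∃ c' : ℝ, 0 < c' ∧ 1 / 2 + c' ≤ nuP P β ω ∧ ∀ ε : ℝ, 0 < ε → ∃ᶠ n : ℕ in atTop,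
      (n : ℝ) ^ (1 + c') ≤ ∫ x, polE β (fun p => ω p x) n (fun s => (walk s n : ℝ) ^ 2) ∂P ∧
      ∫ x, polP β (fun p => ω p x) n {s | |(walk s n : ℝ)| ≤ (n : ℝ) ^ (1 / 2 + c')} ∂P ≤ ε := by
  obtain ⟨a, ha, hwa⟩ := hw
  obtain ⟨h1, h2⟩ := ev_Z (P := P) (ω := ω) (β := β) h hF hmeas hmp ha
  refine ⟨a / 2, by positivity, nuP_ge hmeas fun ε hε => ?_, fun ε hε => ?_⟩
  · refine (hwa.and_eventually (h2 ε hε)).mono fun n hn => ?_
    refine le_trans (integral_mono (polP_integrable hmeas β n _) (polP_integrable hmeas β n _) fun x =>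
      polP_mono _ _ _ fun s hs => ?_) (hn.2 hn.1)
    exact hs n le_rfl
  · exact (hwa.and_eventually (h1.and (h2 ε hε))).mono fun n hn => ⟨hn.2.1 hn.1, hn.2.2 hn.1⟩

/-- **The headline of STORM Z, lattice version** on the probability space of the problem. -/
theorem main_ZF
    (hIn : ∀ (μ : Measure ℝ) [IsProbabilityMeasure μ], Pool.Agent.W_7d29a1_h47.EM μ → Pool.Agent.W_7d29a1_h47.Nondeg μ →
      ∃ (c C : ℝ) (n₀ : ℕ), In μ c C n₀)
    (hHF : ∀ (μ : Measure ℝ) [IsProbabilityMeasure μ], Pool.Agent.W_7d29a1_h47.EM μ → Pool.Agent.W_7d29a1_h47.Nondeg μ →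
      HF2 μ)
    (hZ : ∀ (μ : Measure ℝ) [IsProbabilityMeasure μ], Pool.Agent.W_7d29a1_h47.EM μ → Pool.Agent.W_7d29a1_h47.Nondeg μ →
      ∃ a : ℝ, 0 < a ∧ ∃ᶠ n : ℕ in atTop, (n : ℝ) ^ (1 / 2 + a) ≤ wd μ n)
    {Ω : Type*} [MeasurableSpace Ω] (P : Measure Ω) [IsProbabilityMeasure P]
    (ω : ℕ × ℤ → Ω → ℝ) (hmeas : ∀ p, Measurable (ω p)) (hindep : iIndepFun ω P)
    (hident : ∀ p q, IdentDistrib (ω p) (ω q) P P) (hnc : ¬ ∃ c : ℝ, ∀ᵐ x ∂P, ω (0, 0) x = c)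
    (hexp : ∀ b : ℝ, Integrable (fun x => Real.exp (b * ω (0, 0) x)) P) {β : ℝ} (hβ : 0 < β) :
    ∃ c : ℝ, 0 < c ∧ 1 / 2 + c ≤ nuP P β ω ∧ ∀ ε : ℝ, 0 < ε → ∃ᶠ n : ℕ in atTop,
      (n : ℝ) ^ (1 + c) ≤ ∫ x, polE β (fun p => ω p x) n (fun s => (walk s n : ℝ) ^ 2) ∂P ∧
      ∫ x, polP β (fun p => ω p x) n {s | |(walk s n : ℝ)| ≤ (n : ℝ) ^ (1 / 2 + c)} ∂P ≤ ε := by
  obtain ⟨μ, hμdef⟩ : ∃ μ : Measure ℝ, μ = P.map fun x => β * ω (0, 0) x := ⟨_, rfl⟩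
  have hm0 : Measurable fun x => β * ω (0, 0) x := (hmeas _).const_mul β
  have hprob : IsProbabilityMeasure μ := by
    rw [hμdef]
    exact Measure.isProbabilityMeasure_map hm0.aemeasurable
  have hμ : Pool.Agent.W_7d29a1_h47.EM μ := by
    rw [hμdef]
    exact EM_of (hmeas _) hexp β
  have hnd : Pool.Agent.W_7d29a1_h47.Nondeg μ := by
    rw [hμdef]
    exact Nondeg_of (hmeas _) hnc hβ
  have hmp := mp_toF hmeas hindep hident β
  rw [← hμdef] at hmp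
  obtain ⟨c₀, C₀, n₀, hI⟩ := hIn μ hμ hnd
  exact core_ZF hI (hHF μ hμ hnd) hmeas hmp (hZ μ hμ hnd)

end Pool.Agent.W_7d29a1_Z46
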